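import Pool.Agent.R665.FJ.Flag

/-!
# Farrell–Jones groups with a flag presentation

`C` is any class of groups with the closure properties `ClosedE C`. The class of the groups that
satisfy the Farrell–Jones conjecture for `A`-theory with coefficients and finite wreath products is
such a class (Enkelmann, Lück, Pieper, Ullmann, Winges).

Let `G` be given by generators, which are distributed into blocks `β : X → V`, and relators, and let
`adj` be any relation between the blocks. Suppose that
* each relator is a word in the generators of finitely many pairwise adjacent blocks, and
* each relator remains a consequence of the relators if the generators of one block are replaced by
  the trivial element.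

Then `G` is in `C` if the subgroups generated by the finite sets of pairwise adjacent blocks are in `C`
(`FlagPres`, `blocks`). The number of blocks is arbitrary.

Examples:
* Artin groups (relations `x y x ⋯ = y x y ⋯` of length `m x y`), and more generally groups with in
  addition some relations `x ^ (p x) = 1` (Coxeter groups, Shephard groups, Dyer groups). The blocks
  are the connected components of the graph of the odd labels `m x y`, or unions of these; two blocks
  are adjacent if there is a label between them. So the conjecture for Artin groups is reduced to the
  Artin groups in which any two odd components are joined by a label. If the subgroups generated by
  the cliques of blocks are spherical, then the group is of FC type; the theorem also applies if they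
  are, for instance, affine Artin groups (of type `C` with three blocks, of type `B` with two) or
  direct products of Artin groups for which the conjecture is known.
* graph products, and their generalisations in which the commutator relations between the vertex
  groups of an edge are replaced by any relations between the vertex groups of a clique that become
  trivial if one of these vertex groups is killed: `[x_u, [x_v, x_w]] = 1`,
  `(x_v x_w) ^ k = (x_w x_v) ^ k`, and so on.

Outline of the proof. By the second condition, the map that kills a block `x` is a retraction of `G`
onto the subgroup generated by the other blocks. For a finite set `U` of blocks that contains two
blocks `x ≠ y` which are not adjacent, `G_U` is the amalgamated product of `G_{U∖{x}}` and `G_{U∖{y}}`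
over `G_{U∖{x,y}}`: homomorphisms on the two factors that agree on the intersection define a map on
the generators which satisfies the relators, as a relator contains only letters from pairwise adjacent
blocks, and the factors have the presentations that are obtained by killing the other blocks. The
retraction `G_U → G_{U∖{x}}` is injective on the amalgamated subgroup (and in general not injective on
the other factor), so `G_U` is in `C` by the theorem on amalgamated products in
`MP_8f66f0_al.EdgeInjectiveSplittings`. The group `G` is the directed union of the groups `G_U`.
-/

set_option autoImplicit false

namespace Pool.Agent.Results.MP_2a547c_gt.FlagPresentations

open Pool.Agent.Y110.FJ Pool.Agent.R665.FJ.Flag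

/-- **Farrell–Jones groups with a flag presentation** -/
theorem result (C : ∀ (G : Type) [Group G], Prop) (hC : ClosedE C) :
    (∀ (X V : Type) (β : X → V) (adj : V → V → Prop) (rels : Set (FreeGroup X)),
      FlagPres β adj rels →
      (∀ S : Finset V, (∀ v ∈ S, ∀ w ∈ S, v ≠ w → adj v w) → C ↥(blocks β rels (S : Set V))) →
      C (PresentedGroup rels)) ∧
    (∀ (X V : Type) (β : X → V) (m : X → X → ℕ) (p : X → ℕ),
      (∀ x y, Odd (m x y) → β x = β y) →
      (∀ S : Finset V, (∀ v ∈ S, ∀ w ∈ S, v ≠ w → Joined β m v w) →
        C ↥(blocks β (artin m p) (S : Set V))) →
      C (PresentedGroup (artin m p))) :=
  ⟨fun _ _ _ _ _ hp hcl => flag hC hp hcl,
    fun _ _ β m p hodd hcl => flag hC (artin_flag β m p hodd) hcl⟩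

end Pool.Agent.Results.MP_2a547c_gt.FlagPresentations
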