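import Pool.Agent.R632.SI.Exp

/-!
# Self-similar groups over infinite alphabets and the iterated monodromy groups of exponential maps

`C` is any class of groups with the closure properties `ClosedE C`, all of which are known for the
class of the groups that satisfy the Full Farrell–Jones Conjecture (with coefficients and finite wreath
products) in K-theory, L-theory and A-theory.

(1) Let `ψ : Γ → Wr X Γ` be a wreath recursion over an arbitrary, in general infinite, alphabet `X`: a
homomorphism to the unrestricted wreath product of `Γ` and the symmetric group of `X`. It defines
an action of `Γ` on the rooted tree of the words over `X`. Suppose that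

* `Γ` and its group `top ψ` of permutations of the first letters are in `C`;
* each `γ` that fixes all first letters has only finitely many different sections at the letters;
* `ψ` is contracting to a subset `T` of `Γ` on which the action is faithful: for each `γ` the sections
  at all words of some length are in `T`, and no nontrivial element of `T` acts trivially.

Then the group `Γ ⧸ K` of automorphisms of the tree that is defined by `ψ` is in `C`.

(2) Let `k + 1 ≥ 1` be the preperiod and let `n ≥ 1` be the period of a preperiodic sequence over `ℤ`, and
let `kn` be its kneading automaton over the alphabet `ℤ`, with `k + 1 + n` nontrivial states. The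
group generated by it is in `C`. By Reinke, *Iterated monodromy groups of exponential maps*, these
groups are the iterated monodromy groups of the postsingularly finite exponential maps `λ eᶻ`; they
are amenable, but not elementary subexponentially amenable.

Outline of the proof. The elements of `Γ` whose sections at all words of length `n` are trivial form
a normal subgroup `K_n`. The group `Γ ⧸ K_(n+1)` embeds in `Wr X (Γ ⧸ K_n)`, and its elements that fix
the letters are functions `X → Γ ⧸ K_n` with finite range, so it is in `C` by
`MP_c052b4_al.FiniteRangeWreath` and induction on `n`. By contraction `K` is the union of the `K_n`,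
so `Γ ⧸ K` is a directed colimit. In (2) a reduced word in the free group whose sections do not become
shorter is a power of a generator: its letters have the same infinite directed path.
-/

set_option autoImplicit false

namespace Pool.Agent.Results.MP_2a547c_gt.InfiniteAlphabets

open Pool.Agent.Y110.FJ Pool.Agent.R632.SI
open Pool.Agent.Y462.SS (Wr)

/-- **Self-similar groups over infinite alphabets in a Farrell–Jones class.** -/
theorem result (C : ∀ (G : Type) [Group G], Prop) (hC : ClosedE C) :
    (∀ (X Γ : Type) [Group Γ] (ψ : Γ →* Wr X Γ), C Γ → C (top ψ).range →
      (∀ γ, (ψ γ).p = 1 → (Set.range (ψ γ).s).Finite) →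
      ∀ T : Set Γ, ContractsTo ψ T → (∀ γ ∈ T, Trivially ψ γ → γ = 1) →
      ∀ (K : Subgroup Γ) [K.Normal], (∀ γ, γ ∈ K ↔ Trivially ψ γ) → C (Γ ⧸ K)) ∧
    (∀ (k n : ℕ) [NeZero n] (x : ℕ → ℤ) (y : ZMod n → ℤ), x k ≠ y 0 →
      (∀ d : ZMod n, d ≠ 0 → ∃ r, y (r + d) ≠ y r) →
      ∀ (K : Subgroup (FreeGroup (St k n))) [K.Normal],
        (∀ v, v ∈ K ↔ Trivially (kn x y) v) → C (FreeGroup (St k n) ⧸ K)) :=
  ⟨fun _ _ _ ψ h1 h2 h3 T h4 h5 K _ h6 => C_act ψ hC h1 h2 h3 T h4 h5 K h6,
    fun k n _ x y h1 h2 K _ h3 => C_exp hC k n x y h1 h2 K h3⟩

end Pool.Agent.Results.MP_2a547c_gt.InfiniteAlphabets
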