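import Pool.Agent.R942.FJ.ResReal

/-!
# Extensions whose conjugations are residually realized in torsion-free groups

`C` is any class of groups with the closure properties `ClosedE C`, all of which are known for the
class of the groups that satisfy the A-theoretic Farrell–Jones conjecture with coefficients and finite
wreath products.

Let `N` be a normal subgroup of `G` with `G ⧸ N` in `C`. Assume that finitely generated subgroups of `N`
have bounded length: the chains of subgroups of such a subgroup, each of infinite index in the
preceding one, have bounded length (`LenLe`). For instance `N` may be locally polycyclic, of infinite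
rank.

(1) Suppose that for every `g` in `G` and every finite subset `E` of `N` the conjugation by `g` on `E` is
residually realized: for each `z ≠ 1` in `⟨E, g E g⁻¹⟩` there are a homomorphism `f` of this group to a
torsion-free group `P` in `C` with `f z ≠ 1` and an element `p` of `P` with `f (g x g⁻¹) = p f(x) p⁻¹` for `x`
in `E` (`ResRealized`). Then `G` is in `C`.

(2) Suppose that for every `g` in `G` each element `z ≠ 1` of `N` survives in a torsion-free group in `C` under
a homomorphism of `N ⟨g⟩`. Then `G` is in `C`. In particular this is so if `G`, or only each `N ⟨g⟩`, is
residually torsion-free nilpotent, or residually (torsion-free and in `C`).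

Outline of the proof. The kernels of the homomorphisms `f` have torsion-free quotients. So if such a
kernel does not contain a given subgroup of `⟨E, g E g⁻¹⟩`, it meets it in a subgroup of infinite index,
and after finitely many steps a finite product of the groups `P` realizes the conjugation by `g` on `E`
with an injective homomorphism. Then the criterion `MP_490288_al.RealizationCriterion` applies.
-/

set_option autoImplicit false

namespace Pool.Agent.Results.MP_2a547c_gt.ResidualRealization

open Pool.Agent.Y110.FJ Pool.Agent.R942.FJ

theorem result (C : ∀ (G : Type) [Group G], Prop) (hC : ClosedE C)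
    (G : Type) [Group G] (N : Subgroup G) [N.Normal] (hQ : C (G ⧸ N))
    (hlen : ∀ E : Set G, E.Finite → E ⊆ N → ∃ n, LenLe n (Subgroup.closure E)) :
    ((∀ g : G, ResRealized g C N) → C G) ∧
    ((∀ g : G, ∀ z ∈ N, z ≠ 1 → ∃ (P : Type) (_ : Group P) (f : ↥(N ⊔ Subgroup.zpowers g) →* P),
      C P ∧ (∀ x : P, ∀ k : ℕ, 0 < k → x ^ k = 1 → x = 1) ∧
      ∀ z' : ↥(N ⊔ Subgroup.zpowers g), (z' : G) = z → f z' ≠ 1) → C G) :=
  ⟨fun h => main_res hC N hlen h hQ,
    fun h => main_res hC N hlen (fun g => res_of_hom N g (h g)) hQ⟩

end Pool.Agent.Results.MP_2a547c_gt.ResidualRealization
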