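import Pool.Agent.R941.FJ.GrpAlg

/-!
# Unit groups of free towers of finite dimensional algebras

`C` is a class of groups with the closure properties `ClosedE C`, all of which are known for the class
of the groups that satisfy the A-theoretic Farrell–Jones conjecture with coefficients and finite
wreath products, and which contains the groups `GL_n(F)` for a field `F` (known for `F = ℚ`).

`R` is an `F`-algebra which is the directed union of a family `𝒮` of finite dimensional subalgebras
such that the larger ones are free left modules over the smaller ones (`Tower 𝒮`). Let `N` be a normal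
subgroup of `G` which embeds in the unit group of `R`, let `G ⧸ N` be in `C`, and let every element of
`G` act on `N` by the restriction of an automorphism of the algebra `R` that permutes `𝒮`, up to
conjugation by a unit of `R`. Then `G` is in `C`.

The group algebras of locally finite groups with the group algebras of the finite subgroups are such
towers. Other examples are infinite tensor powers of finite dimensional algebras, the algebras
`M_{n^∞}(F)` and the Clifford algebras of infinite dimensional nondegenerate quadratic spaces.

Proof. By the extension criterion and the realization criterion it is enough that, for `g ∈ G` and a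
finite subset `E` of `N`, conjugation by `g` on `E` is induced by an inner automorphism of a group in
`C` which contains `⟨E, g E g⁻¹⟩`. If `E ⊆ S` and `S, β S ⊆ T` with `S, T ∈ 𝒮` then `T` is a free
module over `S` and over `β S` of the same rank. So `β` is induced on `S` by a linear automorphism of
`T`, and the group is `GL(T)`.
-/

set_option autoImplicit false

namespace Pool.Agent.Results.MP_2a547c_gt.UnitGroupsOfTowers

open Pool.Agent.Y110.FJ Pool.Agent.R941.FJ

theorem result {C : ∀ (G : Type) [Group G], Prop} (hC : ClosedE C) {F : Type} [Field F]
    (hGL : ∀ n : ℕ, C (GL (Fin n) F)) :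
    (∀ (R : Type) [Ring R] [Algebra F R] [Nontrivial R] (𝒮 : Set (Subalgebra F R)), Tower 𝒮 →
      ∀ (G : Type) [Group G] (N : Subgroup G) [N.Normal], C (G ⧸ N) →
      ∀ j : N →* Rˣ, Function.Injective j →
      (∀ g : G, ∃ (u : Rˣ) (β : R ≃ₐ[F] R), (∀ S ∈ 𝒮, S.map (β : R →ₐ[F] R) ∈ 𝒮) ∧
        ∀ x y : N, (y : G) = g * x * g⁻¹ →
          (j y : R) = (u : R) * β (j x : R) * ((u⁻¹ : Rˣ) : R)) → C G) ∧
    ∀ (Λ : Type) [Group Λ], (∀ E : Set Λ, E.Finite → Finite (Subgroup.closure E)) →
      Tower {S : Subalgebra F (MonoidAlgebra F Λ) |
        ∃ H : Subgroup Λ, Finite H ∧ S = supAlg F H} :=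
  ⟨fun _ _ _ _ _ h𝒮 _ _ N _ hQ j hj hact => tower hC hGL h𝒮 N hQ j hj hact,
    fun _ _ hlf => grp_tower hlf⟩

end Pool.Agent.Results.MP_2a547c_gt.UnitGroupsOfTowers
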